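import Pool.Agent.H61.KL.Exch

/-!
# Leaders of boxes comparable with the box of the linking (MP_a7460d_ag)

`e = (i,j)`, `A = NWs u i j ∪ C`, `B = NWs u i j ∪ R`, `s : A → B` a matching, `μ : G → F` the leader of a box `f = (i',j')`, all of whose proper steps are steps
of `s`.  `case_NW`: `f` NW of `e` contradicts the rank conditions.  `case_self`, `case_SW`, `case_NE`: otherwise `s` is the largest matching `A → B`.
-/

set_option autoImplicit false

open Pool.Agent.H30.KL Pool.Agent.H44.KL

namespace Pool.Agent.H61.KL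

variable {n : ℕ} {u v : Equiv.Perm (Fin n)} {i j i' j' : Fin n} {C R G F W : Finset (Fin n)}
  {s t μ : Fin n → Fin n}

open Classical in
/-- the points of the box which are moved by some linking -/
noncomputable def Us (u : Equiv.Perm (Fin n)) (C R : Finset (Fin n)) (i j : Fin n) :
    Finset (Fin n) :=
  (NWs u i j).filter fun x => ∃ t : Fin n → Fin n,
    Mt u (NWs u i j ∪ C) (NWs u i j ∪ R) t ∧ t x ≠ x

theorem mem_Us {x : Fin n} : x ∈ Us u C R i j ↔ x ∈ NWs u i j ∧ ∃ t : Fin n → Fin n,
    Mt u (NWs u i j ∪ C) (NWs u i j ∪ R) t ∧ t x ≠ x := by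
  simp only [Us, Finset.mem_filter]

/-- a moved point is to the right of a start -/
theorem moved_right (h : Mt u (W ∪ C) (W ∪ R) t) : ∀ (N : ℕ) (x : Fin n), (x : ℕ) = N → x ∈ W →
    t x ≠ x → ∃ c ∈ C, c < x := by
  intro N
  induction N using Nat.strong_induction_on with
  | _ N ih =>
    intro x hN hx hne
    obtain ⟨y, hy, hyx⟩ := h.surj (Finset.mem_union_left R hx)
    have h1 : y ≠ x := by
      rintro rfl
      exact hne hyx
    have h2 : t y ≠ y := by
      rw [hyx]
      exact h1.symm
    have h3 : y < x := by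
      have := (h.up y hy h2).1
      rwa [hyx] at this
    rcases Finset.mem_union.1 hy with h4 | h4
    · obtain ⟨c, hc, hcy⟩ := ih (y : ℕ) (by
        rw [Fin.lt_def] at h3
        omega) y rfl h4 h2
      exact ⟨c, hc, hcy.trans h3⟩
    · exact ⟨y, h4, h3⟩

/-- a moved point is below an end -/
theorem moved_up (h : Mt u (W ∪ C) (W ∪ R) t) : ∀ (N : ℕ) (x : Fin n), n - (x : ℕ) = N → x ∈ W →
    t x ≠ x → ∃ r ∈ R, u x < u r := by
  intro N
  induction N using Nat.strong_induction_on with
  | _ N ih =>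
    intro x hN hx hne
    have hxA := Finset.mem_union_left C hx
    have h1 := h.up x hxA hne
    have h2 := h.mem hxA
    rcases Finset.mem_union.1 h2 with h3 | h3
    · have h4 : t (t x) ≠ t x := fun h5 => hne (h.inj (Finset.mem_union_left C h3) hxA h5)
      obtain ⟨r, hr, hxr⟩ := ih (n - (t x : ℕ)) (by
        have h5 := h1.1
        have h6 := (t x).isLt
        rw [Fin.lt_def] at h5
        omega) (t x) rfl h3 h4
      exact ⟨r, hr, h1.2.trans hxr⟩
    · exact ⟨t x, h3, h1.2⟩

theorem not_mem_R_of_le (hR : R ⊆ NEs u i j) {x : Fin n} (hx : x ≤ j) : x ∉ R := fun h =>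
  absurd (mem_NEs.1 (hR h)).1 (not_lt.2 hx)

theorem not_mem_C_of_le (hC : C ⊆ SWs u i j) {x : Fin n} (hx : i ≤ u x) : x ∉ C := fun h =>
  absurd (mem_SWs.1 (hC h)).2 (not_lt.2 hx)

theorem val_of_mem_B (hR : R ⊆ NEs u i j) {x : Fin n} (hx : x ∈ NWs u i j ∪ R) : i ≤ u x := by
  rcases Finset.mem_union.1 hx with h | h
  · exact (mem_NWs.1 h).2
  · exact (mem_NEs.1 (hR h)).2

theorem pos_of_mem_A (hC : C ⊆ SWs u i j) {x : Fin n} (hx : x ∈ NWs u i j ∪ C) : x ≤ j := by
  rcases Finset.mem_union.1 hx with h | h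
  · exact (mem_NWs.1 h).1
  · exact (mem_SWs.1 (hC h)).1

theorem card_CR (hC : C ⊆ SWs u i j) (hR : R ⊆ NEs u i j)
    (hs : Mt u (NWs u i j ∪ C) (NWs u i j ∪ R) s) : C.card = R.card := by
  have h1 := hs.card
  rw [Finset.card_union_of_disjoint, Finset.card_union_of_disjoint] at h1
  · omega
  · rw [Finset.disjoint_left]
    intro x hx hx'
    exact not_mem_R_of_le hR (mem_NWs.1 hx).1 hx'
  · rw [Finset.disjoint_left]
    intro x hx hx'
    exact not_mem_C_of_le hC (mem_NWs.1 hx).2 hx'

/-- a box NW of the box of the linking -/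
theorem case_NW (hRk : Rk u v i j (NWs u i j ∪ C) s) (hs : Mt u (NWs u i j ∪ C) (NWs u i j ∪ R) s)
    (hL : Ldr u v i' j' G F μ) (hsub : ∀ y ∈ G, μ y ≠ y → y ∈ NWs u i j ∪ C ∧ μ y = s y)
    (hi : i ≤ i') (hj : j' ≤ j) (hne : i' ≠ i ∨ j' ≠ j) : False := by
  have h1 : G ⊆ (NWs u i j ∪ C).filter fun a => a ≤ j' ∧ i' ≤ u (s a) := by
    intro y hy
    rw [Finset.mem_filter]
    have h2 := hL.hF _ (hL.mt.mem hy)
    by_cases h3 : μ y = y
    · rw [h3] at h2
      have h4 : y ∈ NWs u i j ∪ C :=
        Finset.mem_union_left C (mem_NWs.2 ⟨(hL.hG y hy).trans hj, hi.trans h2⟩)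
      exact ⟨h4, hL.hG y hy, h2.trans (hs.le_val h4)⟩
    · obtain ⟨h4, h5⟩ := hsub y hy h3
      rw [h5] at h2
      exact ⟨h4, hL.hG y hy, h2⟩
  have h2 := (Finset.card_le_card h1).trans (hRk i' j' hi hj hne)
  have h3 := hL.card
  omega

/-- the box of the linking -/
theorem case_self (hC : C ⊆ SWs u i j) (hR : R ⊆ NEs u i j)
    (hrk : rk u i j + C.card = rk v i j + 1) (hs : Mt u (NWs u i j ∪ C) (NWs u i j ∪ R) s)
    (hL : Ldr u v i j G F μ) (hsub : ∀ y ∈ G, μ y ≠ y → y ∈ NWs u i j ∪ C ∧ μ y = s y) :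
    ∀ t, Mt u (NWs u i j ∪ C) (NWs u i j ∪ R) t → ¬ Lt u (NWs u i j ∪ C) s t := by
  have hG : G = NWs u i j ∪ C := by
    apply Finset.eq_of_subset_of_card_le
    · intro y hy
      by_cases h1 : i ≤ u y
      · exact Finset.mem_union_left C (mem_NWs.2 ⟨hL.hG y hy, h1⟩)
      · have h2 : μ y ≠ y := by
          intro h3
          have h4 := hL.hF _ (hL.mt.mem hy)
          rw [h3] at h4
          exact h1 h4
        exact (hsub y hy h2).1
    · have h1 := Finset.card_union_le (NWs u i j) C
      have h2 := hL.card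
      rw [card_NWs] at h1
      omega
  have hF : F = NWs u i j ∪ R := by
    apply Finset.eq_of_subset_of_card_le
    · intro x hx
      by_cases h1 : x ≤ j
      · exact Finset.mem_union_left R (mem_NWs.2 ⟨h1, hL.hF x hx⟩)
      · obtain ⟨y, hy, rfl⟩ := hL.mt.surj hx
        have h2 : μ y ≠ y := by
          intro h3
          rw [h3] at h1
          exact h1 (hL.hG y hy)
        obtain ⟨h3, h4⟩ := hsub y hy h2
        rw [h4]
        exact hs.mem h3
    · rw [← hL.mt.card, hG, hs.card]
  have hμ : ∀ (N : ℕ) (x : Fin n), (x : ℕ) = N → x ∈ NWs u i j ∪ C → μ x = s x := by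
    intro N
    induction N using Nat.strong_induction_on with
    | _ N ih =>
      intro x hN hx
      by_contra hne
      have hxG : x ∈ G := by rw [hG]; exact hx
      have h1 : μ x = x := by
        by_contra h2
        exact hne (hsub x hxG h2).2
      have hxF := hL.mt.mem hxG
      rw [h1, hF] at hxF
      obtain ⟨b, hb, hbx⟩ := hs.surj hxF
      have h2 : b ≠ x := by
        rintro rfl
        exact hne (h1.trans hbx.symm)
      have h3 := (hs.up b hb (by rw [hbx]; exact h2.symm)).1
      rw [hbx] at h3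
      have h4 := ih (b : ℕ) (by
        rw [Fin.lt_def] at h3
        omega) b rfl hb
      rw [hbx, ← h1] at h4
      exact h2 (hL.mt.inj (by rw [hG]; exact hb) hxG h4)
  rintro t ht ⟨d, hd, h1, h2⟩
  refine hL.max t (by rw [hG, hF]; exact ht) ⟨d, by rw [hG]; exact hd, ?_, ?_⟩
  · intro y hy hdy
    rw [hG] at hy
    rw [hμ _ y rfl hy]
    exact h1 y hy hdy
  · rw [hμ _ d rfl hd]
    exact h2

/-- a box SW of the box of the linking -/
theorem case_SW (hC : C ⊆ SWs u i j) (hR : R ⊆ NEs u i j) (hI : Irr u v i j C R)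
    (hs : Mt u (NWs u i j ∪ C) (NWs u i j ∪ R) s) (hL : Ldr u v i' j' G F μ)
    (hsub : ∀ y ∈ G, μ y ≠ y → y ∈ NWs u i j ∪ C ∧ μ y = s y)
    (hi : i' ≤ i) (hj : j' ≤ j) (hne : i' ≠ i ∨ j' ≠ j)
    (hmin : C ⊆ SWs u i' j' → R ⊆ NEs u i' j' → rk u i' j' + C.card = rk v i' j' + 1 →
      (Us u C R i j).card ≤ (Us u C R i' j').card) :
    ∀ t, Mt u (NWs u i j ∪ C) (NWs u i j ∪ R) t → ¬ Lt u (NWs u i j ∪ C) s t := by
  have hCG : ∀ y ∈ G, u y < i' → y ∈ C := by
    intro y hy hlt
    have h2 : μ y ≠ y := by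
      intro h3
      have h4 := hL.hF _ (hL.mt.mem hy)
      rw [h3] at h4
      exact absurd hlt (not_lt.2 h4)
    rcases Finset.mem_union.1 (hsub y hy h2).1 with h3 | h3
    · exact absurd (hlt.trans_le hi) (not_lt.2 (mem_NWs.1 h3).2)
    · exact h3
  have hGsub : G ⊆ NWs u i' j' ∪ C.filter fun c => c ≤ j' ∧ u c < i' := by
    intro y hy
    by_cases h1 : u y < i'
    · exact Finset.mem_union_right _ (Finset.mem_filter.2 ⟨hCG y hy h1, hL.hG y hy, h1⟩)
    · exact Finset.mem_union_left _ (mem_NWs.2 ⟨hL.hG y hy, not_lt.1 h1⟩)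
  have hcard := hL.card
  obtain ⟨hC', hrk'⟩ : C ⊆ SWs u i' j' ∧ rk u i' j' + C.card = rk v i' j' + 1 := by
    refine (hI.1 i' j' hi hj hne).resolve_left ?_
    intro h1
    have h2 := (Finset.card_le_card hGsub).trans (Finset.card_union_le _ _)
    rw [card_NWs] at h2
    omega
  have hR' : R ⊆ NEs u i' j' := fun r hr =>
    mem_NEs.2 ⟨hj.trans_lt (mem_NEs.1 (hR hr)).1, hi.trans (mem_NEs.1 (hR hr)).2⟩
  have hG : G = NWs u i' j' ∪ C := by
    apply Finset.eq_of_subset_of_card_le
    · intro y hy
      rcases Finset.mem_union.1 (hGsub hy) with h1 | h1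
      · exact Finset.mem_union_left _ h1
      · exact Finset.mem_union_right _ (Finset.mem_filter.1 h1).1
    · have h1 := Finset.card_union_le (NWs u i' j') C
      rw [card_NWs] at h1
      omega
  have hmemG : ∀ x, x ≤ j' → x ∈ NWs u i j ∪ C → x ∈ G := by
    intro x hx h1
    rw [hG]
    rcases Finset.mem_union.1 h1 with h2 | h2
    · exact Finset.mem_union_left _ (mem_NWs.2 ⟨hx, hi.trans (mem_NWs.1 h2).2⟩)
    · exact Finset.mem_union_right _ h2
  have hμ : ∀ (N : ℕ) (x : Fin n), (x : ℕ) = N → x ∈ G → x ∈ NWs u i j ∪ C → μ x = s x := by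
    intro N
    induction N using Nat.strong_induction_on with
    | _ N ih =>
      intro x hN hxG hx
      by_contra hne
      have h1 : μ x = x := by
        by_contra h2
        exact hne (hsub x hxG h2).2
      have hxF := hL.mt.mem hxG
      rw [h1] at hxF
      have hxN : x ∈ NWs u i j :=
        (Finset.mem_union.1 hx).resolve_right (not_mem_C_of_le hC' (hL.hF x hxF))
      obtain ⟨b, hb, hbx⟩ := hs.surj (Finset.mem_union_left R hxN)
      have h2 : b ≠ x := by
        rintro rfl
        exact hne (h1.trans hbx.symm)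
      have h3 := (hs.up b hb (by rw [hbx]; exact h2.symm)).1
      rw [hbx] at h3
      have hbG : b ∈ G := hmemG b (h3.le.trans (hL.hG x hxG)) hb
      have h4 := ih (b : ℕ) (by
        rw [Fin.lt_def] at h3
        omega) b rfl hbG hb
      rw [hbx, ← h1] at h4
      exact h2 (hL.mt.inj hbG hxG h4)
  have hfix : ∀ y ∈ G, y ∉ NWs u i j ∪ C → μ y = y := by
    intro y hy h1
    by_contra h2
    exact h1 (hsub y hy h2).1
  have hNF : NWs u i' j' ⊆ F := by
    intro y hy
    have hyG : y ∈ G := by
      rw [hG]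
      exact Finset.mem_union_left _ hy
    by_cases h1 : y ∈ NWs u i j ∪ C
    · have hyN : y ∈ NWs u i j :=
        (Finset.mem_union.1 h1).resolve_right (not_mem_C_of_le hC' (mem_NWs.1 hy).2)
      obtain ⟨b, hb, hby⟩ := hs.surj (Finset.mem_union_left R hyN)
      have h2 : b ≤ y := by
        have := hs.le hb
        rwa [hby] at this
      have hbG := hmemG b (h2.trans (mem_NWs.1 hy).1) hb
      have h3 := hL.mt.mem hbG
      rwa [hμ _ b rfl hbG hb, hby] at h3
    · have h2 := hL.mt.mem hyG
      rwa [hfix y hyG h1] at h2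
  -- the points of the strip are to the left of all the starts
  have hstrip : ∀ w ∈ NWs u i' j', u w < i → ∀ c ∈ C, w < c := by
    intro w hw hwi c hc
    by_contra hcw
    have hcu := (mem_SWs.1 (hC' hc)).2
    have hwu := (mem_NWs.1 hw).2
    have hcw' : c < w := by
      rcases lt_or_eq_of_le (not_lt.1 hcw) with h1 | h1
      · exact h1
      · rw [h1] at hcu
        exact absurd hcu (not_lt.2 hwu)
    have hwG : w ∈ G := by
      rw [hG]
      exact Finset.mem_union_left _ hw
    have hwA : w ∉ NWs u i j ∪ C := by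
      intro h1
      rcases Finset.mem_union.1 h1 with h2 | h2
      · exact absurd hwi (not_lt.2 (mem_NWs.1 h2).2)
      · exact not_mem_C_of_le hC' hwu h2
    have hμw := hfix w hwG hwA
    have hcG : c ∈ G := by
      rw [hG]
      exact Finset.mem_union_right _ hc
    obtain ⟨a, ha, haw, hwa⟩ : ∃ a ∈ G, a < w ∧ w < μ a := by
      by_contra hno
      push Not at hno
      have h1 : (G.filter fun y => y < w).card ≤ ((G.filter fun y => y < w).erase c).card := by
        refine Finset.card_le_card_of_injOn μ ?_ ?_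
        · intro y hy
          have hy' := Finset.mem_filter.1 (Finset.mem_coe.1 hy)
          have h2 : μ y ≠ w := by
            intro h3
            rw [← hμw] at h3
            exact hy'.2.ne (hL.mt.inj hy'.1 hwG h3)
          have h3 : μ y < w := lt_of_le_of_ne (hno y hy'.1 hy'.2) h2
          have h4 := hL.hF _ (hL.mt.mem hy'.1)
          refine Finset.mem_coe.2 (Finset.mem_erase.2 ⟨?_, Finset.mem_filter.2 ⟨?_, h3⟩⟩)
          · intro h5
            rw [h5] at h4
            exact absurd hcu (not_lt.2 h4)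
          · rw [hG]
            exact Finset.mem_union_left _ (mem_NWs.2 ⟨h3.le.trans (mem_NWs.1 hw).1, h4⟩)
        · intro y hy z hz hyz
          exact hL.mt.inj (Finset.mem_filter.1 (Finset.mem_coe.1 hy)).1
            (Finset.mem_filter.1 (Finset.mem_coe.1 hz)).1 hyz
      have h2 : c ∈ G.filter fun y => y < w := Finset.mem_filter.2 ⟨hcG, hcw'⟩
      have h3 := Finset.card_erase_lt_of_mem h2
      omega
    have h1 : μ a ≠ a := (haw.trans hwa).ne'
    obtain ⟨h2, h3⟩ := hsub a ha h1
    refine no_exch hL ha hwG haw hwa ?_ ?_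
    · rw [hμw, h3]
      exact hwi.trans_le (val_of_mem_B hR (hs.mem h2))
    · intro x hx hxw hxu
      rw [hμw] at hxu
      exact hNF (mem_NWs.2 ⟨hL.hG x hx, hwu.trans hxu.le⟩)
  have hmov : ∀ t, Mt u (NWs u i' j' ∪ C) (NWs u i' j' ∪ R) t → ∀ x ∈ NWs u i' j', t x ≠ x →
      i ≤ u x := by
    intro t ht x hx hne
    by_contra h1
    obtain ⟨c, hc, hcx⟩ := moved_right ht _ x rfl hx hne
    exact absurd hcx (not_lt.2 (hstrip x hx (not_le.1 h1) c hc).le)
  have hUs : Us u C R i' j' ⊆ Us u C R i j := by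
    intro x hx
    obtain ⟨hx, t, ht, hne⟩ := mem_Us.1 hx
    have hxi := hmov t ht x hx hne
    refine mem_Us.2 ⟨mem_NWs.2 ⟨(mem_NWs.1 hx).1.trans hj, hxi⟩,
      fun y => if y ∈ NWs u i' j' ∪ C then t y else y, ?_, ?_⟩
    · refine Mt.of_surj hs.card ?_ ?_
      · intro b hb
        by_cases h1 : b ∈ NWs u i' j' ∪ R
        · obtain ⟨a, ha, hab⟩ := ht.surj h1
          refine ⟨a, ?_, by simp only [if_pos ha]; exact hab⟩
          rcases Finset.mem_union.1 ha with h2 | h2
          · refine Finset.mem_union_left _ (mem_NWs.2 ⟨(mem_NWs.1 h2).1.trans hj, ?_⟩)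
            by_cases h3 : t a = a
            · rw [← h3, hab]
              exact val_of_mem_B hR hb
            · exact hmov t ht a h2 h3
          · exact Finset.mem_union_right _ h2
        · have hbN : b ∈ NWs u i j := by
            refine (Finset.mem_union.1 hb).resolve_right fun h2 => h1 (Finset.mem_union_right _ h2)
          refine ⟨b, Finset.mem_union_left _ hbN, ?_⟩
          have h2 : b ∉ NWs u i' j' ∪ C := by
            intro h3
            rcases Finset.mem_union.1 h3 with h4 | h4
            · exact h1 (Finset.mem_union_left _ h4)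
            · exact not_mem_C_of_le hC (mem_NWs.1 hbN).2 h4
          simp only [if_neg h2]
      · intro a ha hne'
        by_cases h1 : a ∈ NWs u i' j' ∪ C
        · simp only [if_pos h1] at hne' ⊢
          exact ht.up a h1 hne'
        · simp only [if_neg h1] at hne'
          exact absurd rfl hne'
    · simp only [if_pos (Finset.mem_union_left C hx)]
      exact hne
  have hUeq : Us u C R i' j' = Us u C R i j :=
    Finset.eq_of_subset_of_card_le hUs (hmin hC' hR' hrk')
  have hmove : ∀ t, Mt u (NWs u i j ∪ C) (NWs u i j ∪ R) t → ∀ x ∈ NWs u i j, t x ≠ x →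
      x ≤ j' := by
    intro t ht x hx hne
    have h1 : x ∈ Us u C R i j := mem_Us.2 ⟨hx, t, ht, hne⟩
    rw [← hUeq] at h1
    exact (mem_NWs.1 (mem_Us.1 h1).1).1
  have hCR := card_CR hC hR hs
  have hF : F = NWs u i' j' ∪ R := by
    apply Finset.eq_of_subset_of_card_le
    · intro x hx
      by_cases h1 : x ≤ j'
      · exact Finset.mem_union_left _ (mem_NWs.2 ⟨h1, hL.hF x hx⟩)
      · obtain ⟨y, hy, rfl⟩ := hL.mt.surj hx
        have h2 : μ y ≠ y := by
          intro h3
          rw [h3] at h1
          exact h1 (hL.hG y hy)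
        obtain ⟨h3, h4⟩ := hsub y hy h2
        rw [h4] at h1 h2 ⊢
        rcases Finset.mem_union.1 (hs.mem h3) with h5 | h5
        · exfalso
          apply h1
          refine hmove s hs _ h5 ?_
          intro h6
          exact h2 (hs.inj (Finset.mem_union_left _ h5) h3 h6)
        · exact Finset.mem_union_right _ h5
    · rw [← hL.mt.card]
      have h1 := Finset.card_union_le (NWs u i' j') R
      rw [card_NWs] at h1
      omega
  rintro t ht ⟨d, hd, h1, h2⟩
  have hdG : d ∈ G := by
    rcases Finset.mem_union.1 hd with h3 | h3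
    · refine hmemG d ?_ hd
      by_contra h4
      have h5 : s d = d := by
        by_contra h6
        exact h4 (hmove s hs d h3 h6)
      have h6 : t d = d := by
        by_contra h7
        exact h4 (hmove t ht d h3 h7)
      rw [h5, h6] at h2
      exact absurd h2 (lt_irrefl _)
    · rw [hG]
      exact Finset.mem_union_right _ h3
  refine hL.max (fun y => if y ∈ NWs u i j ∪ C then t y else y) ?_ ⟨d, hdG, ?_, ?_⟩
  · refine Mt.of_surj hL.mt.card ?_ ?_
    · intro b hb
      rw [hF] at hb
      by_cases h3 : b ∈ NWs u i j ∪ R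
      · obtain ⟨a, ha, hab⟩ := ht.surj h3
        refine ⟨a, ?_, by simp only [if_pos ha]; exact hab⟩
        rcases Finset.mem_union.1 ha with h4 | h4
        · apply hmemG a _ ha
          by_cases h5 : t a = a
          · rcases Finset.mem_union.1 hb with h6 | h6
            · rw [← h5, hab]
              exact (mem_NWs.1 h6).1
            · exfalso
              rw [← hab, h5] at h6
              exact not_mem_R_of_le hR (mem_NWs.1 h4).1 h6
          · exact hmove t ht a h4 h5
        · rw [hG]
          exact Finset.mem_union_right _ h4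
      · have h4 : b ∈ NWs u i' j' := by
          refine (Finset.mem_union.1 hb).resolve_right fun h5 => h3 (Finset.mem_union_right _ h5)
        refine ⟨b, by rw [hG]; exact Finset.mem_union_left _ h4, ?_⟩
        have h5 : b ∉ NWs u i j ∪ C := by
          intro h6
          rcases Finset.mem_union.1 h6 with h7 | h7
          · exact h3 (Finset.mem_union_left _ h7)
          · exact not_mem_C_of_le hC' (mem_NWs.1 h4).2 h7
        simp only [if_neg h5]
    · intro a ha hne'
      by_cases h3 : a ∈ NWs u i j ∪ C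
      · simp only [if_pos h3] at hne' ⊢
        exact ht.up a h3 hne'
      · simp only [if_neg h3] at hne'
        exact absurd rfl hne'
  · intro y hy hdy
    by_cases h3 : y ∈ NWs u i j ∪ C
    · simp only [if_pos h3]
      rw [hμ _ y rfl hy h3]
      exact h1 y h3 hdy
    · simp only [if_neg h3]
      exact (hfix y hy h3).symm
  · simp only [if_pos hd]
    rw [hμ _ d rfl hdG hd]
    exact h2

end Pool.Agent.H61.KL
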