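import Pool.Agent.H61.KL.CaseB

/-!
# Leaders of boxes NE of the box of the linking (MP_a7460d_ag)
-/

set_option autoImplicit false

open Pool.Agent.H30.KL Pool.Agent.H44.KL

namespace Pool.Agent.H61.KL

variable {n : ℕ} {u v : Equiv.Perm (Fin n)} {i j i' j' : Fin n} {C R G F W : Finset (Fin n)}
  {s t μ : Fin n → Fin n}

/-- a box NE of the box of the linking -/
theorem case_NE (hC : C ⊆ SWs u i j) (hR : R ⊆ NEs u i j) (hI : Irr u v i j C R)
    (hs : Mt u (NWs u i j ∪ C) (NWs u i j ∪ R) s) (hL : Ldr u v i' j' G F μ)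
    (hsub : ∀ y ∈ G, μ y ≠ y → y ∈ NWs u i j ∪ C ∧ μ y = s y)
    (hi : i ≤ i') (hj : j ≤ j') (hne : i' ≠ i ∨ j' ≠ j)
    (hmin : C ⊆ SWs u i' j' → R ⊆ NEs u i' j' → rk u i' j' + C.card = rk v i' j' + 1 →
      (Us u C R i j).card ≤ (Us u C R i' j').card) :
    ∀ t, Mt u (NWs u i j ∪ C) (NWs u i j ∪ R) t → ¬ Lt u (NWs u i j ∪ C) s t := by
  have hCR := card_CR hC hR hs
  have hRF : ∀ x ∈ F, j' < x → x ∈ R := by
    intro x hx hlt
    obtain ⟨y, hy, rfl⟩ := hL.mt.surj hx
    have h2 : μ y ≠ y := by
      intro h3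
      rw [h3] at hlt
      exact absurd hlt (not_lt.2 (hL.hG y hy))
    obtain ⟨h3, h4⟩ := hsub y hy h2
    rw [h4] at hlt ⊢
    rcases Finset.mem_union.1 (hs.mem h3) with h5 | h5
    · exact absurd (hlt.trans_le ((mem_NWs.1 h5).1.trans hj)) (lt_irrefl _)
    · exact h5
  have hFsub : F ⊆ NWs u i' j' ∪ R.filter fun r => j' < r ∧ i' ≤ u r := by
    intro x hx
    by_cases h1 : j' < x
    · exact Finset.mem_union_right _ (Finset.mem_filter.2 ⟨hRF x hx h1, h1, hL.hF x hx⟩)
    · exact Finset.mem_union_left _ (mem_NWs.2 ⟨not_lt.1 h1, hL.hF x hx⟩)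
  have hcard := hL.card
  have hcard' := hL.mt.card
  obtain ⟨hR', hrk'⟩ : R ⊆ NEs u i' j' ∧ rk u i' j' + R.card = rk v i' j' + 1 := by
    refine (hI.2 i' j' hi hj hne).resolve_left ?_
    intro h1
    have h2 := (Finset.card_le_card hFsub).trans (Finset.card_union_le _ _)
    rw [card_NWs] at h2
    omega
  have hC' : C ⊆ SWs u i' j' := fun c hc =>
    mem_SWs.2 ⟨(mem_SWs.1 (hC hc)).1.trans hj, (mem_SWs.1 (hC hc)).2.trans_le hi⟩
  have hF : F = NWs u i' j' ∪ R := by
    apply Finset.eq_of_subset_of_card_le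
    · intro y hy
      rcases Finset.mem_union.1 (hFsub hy) with h1 | h1
      · exact Finset.mem_union_left _ h1
      · exact Finset.mem_union_right _ (Finset.mem_filter.1 h1).1
    · have h1 := Finset.card_union_le (NWs u i' j') R
      rw [card_NWs] at h1
      omega
  have hmemF : ∀ x, i' ≤ u x → x ∈ NWs u i j ∪ R → x ∈ F := by
    intro x hx h1
    rw [hF]
    rcases Finset.mem_union.1 h1 with h2 | h2
    · exact Finset.mem_union_left _ (mem_NWs.2 ⟨(mem_NWs.1 h2).1.trans hj, hx⟩)
    · exact Finset.mem_union_right _ h2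
  have hμ : ∀ (N : ℕ) (x : Fin n), n - (x : ℕ) = N → x ∈ F → ∀ b ∈ NWs u i j ∪ C, s b = x →
      b ∈ G ∧ μ b = s b := by
    intro N
    induction N using Nat.strong_induction_on with
    | _ N ih =>
      intro x hN hxF b hb hbx
      obtain ⟨b', hb', hbx'⟩ := hL.mt.surj hxF
      by_cases h1 : b' = x
      · subst h1
        have h2 : b' ∉ R := not_mem_R_of_le hR' (hL.hG b' hb')
        have h3 := hs.mem hb
        rw [hbx] at h3
        have h4 : b' ∈ NWs u i j := (Finset.mem_union.1 h3).resolve_right h2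
        have h5 : b = b' := by
          by_contra h6
          have h7 : s b' ≠ b' := by
            intro h8
            exact h6 (hs.inj hb (Finset.mem_union_left _ h4) (by rw [hbx, h8]))
          have h8 := hs.up b' (Finset.mem_union_left _ h4) h7
          have h9 : s b' ∈ F := hmemF _ ((hL.hF b' hxF).trans h8.2.le)
            (hs.mem (Finset.mem_union_left _ h4))
          have h10 := ih (n - (s b' : ℕ)) (by
            have h11 := h8.1
            have h12 := (s b').isLt
            rw [Fin.lt_def] at h11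
            omega) (s b') rfl h9 b' (Finset.mem_union_left _ h4) rfl
          rw [hbx'] at h10
          exact h7 h10.2.symm
        rw [h5] at hbx ⊢
        exact ⟨hb', hbx'.trans hbx.symm⟩
      · obtain ⟨h2, h3⟩ := hsub b' hb' (by rw [hbx']; exact Ne.symm h1)
        have h4 : b' = b := hs.inj h2 hb (by rw [← h3, hbx', hbx])
        rw [← h4]
        exact ⟨hb', h3⟩
  have hfix : ∀ y ∈ G, y ∉ NWs u i j ∪ C → μ y = y := by
    intro y hy h1
    by_contra h2
    exact h1 (hsub y hy h2).1
  -- the points of the strip are fixed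
  have hfix' : ∀ w ∈ NWs u i' j', j < w → w ∈ G ∧ μ w = w := by
    intro w hw hjw
    have hwF : w ∈ F := by
      rw [hF]
      exact Finset.mem_union_left _ hw
    obtain ⟨b, hb, hbw⟩ := hL.mt.surj hwF
    by_cases h1 : b = w
    · subst h1
      exact ⟨hb, hbw⟩
    · exfalso
      obtain ⟨h2, h3⟩ := hsub b hb (by rw [hbw]; exact Ne.symm h1)
      have h4 := hs.mem h2
      rw [← h3, hbw] at h4
      rcases Finset.mem_union.1 h4 with h5 | h5
      · exact absurd hjw (not_lt.2 (mem_NWs.1 h5).1)
      · exact not_mem_R_of_le hR' (mem_NWs.1 hw).1 h5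
  -- and above all the ends
  have hstrip : ∀ w ∈ NWs u i' j', j < w → ∀ r ∈ R, u r < u w := by
    intro w hw hjw r hr
    by_contra hrw
    have hrj := (mem_NEs.1 (hR' hr)).1
    have hwj := (mem_NWs.1 hw).1
    have hrw' : u w < u r := by
      rcases lt_or_eq_of_le (not_lt.1 hrw) with h1 | h1
      · exact h1
      · rw [u.injective h1] at hwj
        exact absurd hrj (not_lt.2 hwj)
    obtain ⟨hwG, hμw⟩ := hfix' w hw hjw
    have hrF : r ∈ F := by
      rw [hF]
      exact Finset.mem_union_right _ hr
    obtain ⟨a, ha, har⟩ := hL.mt.surj hrF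
    have h1 : μ a ≠ a := by
      rw [har]
      exact ((hL.hG a ha).trans_lt hrj).ne'
    obtain ⟨h2, h3⟩ := hsub a ha h1
    refine no_exch hL ha hwG ((pos_of_mem_A hC h2).trans_lt hjw) ?_ ?_ ?_
    · rw [har]
      exact hwj.trans_lt hrj
    · rw [hμw, har]
      exact hrw'
    · intro x hx hxw hxu
      rw [hμw] at hxu
      rw [hF]
      exact Finset.mem_union_left _ (mem_NWs.2 ⟨hL.hG x hx, (mem_NWs.1 hw).2.trans hxu.le⟩)
  have hmov : ∀ t, Mt u (NWs u i' j' ∪ C) (NWs u i' j' ∪ R) t → ∀ x ∈ NWs u i' j', t x ≠ x →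
      x ≤ j := by
    intro t ht x hx hne
    by_contra h1
    obtain ⟨r, hr, hxr⟩ := moved_up ht _ x rfl hx hne
    exact absurd hxr (not_lt.2 (hstrip x hx (not_le.1 h1) r hr).le)
  have hUs : Us u C R i' j' ⊆ Us u C R i j := by
    intro x hx
    obtain ⟨hx, t, ht, hne⟩ := mem_Us.1 hx
    have hxj := hmov t ht x hx hne
    refine mem_Us.2 ⟨mem_NWs.2 ⟨hxj, hi.trans (mem_NWs.1 hx).2⟩,
      fun y => if y ∈ NWs u i' j' ∪ C then t y else y, ?_, ?_⟩
    · refine Mt.of_surj hs.card ?_ ?_
      · intro b hb
        by_cases h1 : b ∈ NWs u i' j' ∪ R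
        · obtain ⟨a, ha, hab⟩ := ht.surj h1
          refine ⟨a, ?_, by simp only [if_pos ha]; exact hab⟩
          rcases Finset.mem_union.1 ha with h2 | h2
          · refine Finset.mem_union_left _ (mem_NWs.2 ⟨?_, hi.trans (mem_NWs.1 h2).2⟩)
            by_cases h3 : t a = a
            · have h4 : a ∉ R := not_mem_R_of_le hR' (mem_NWs.1 h2).1
              rw [h3] at hab
              rw [hab] at h4 ⊢
              exact (mem_NWs.1 ((Finset.mem_union.1 hb).resolve_right h4)).1
            · exact hmov t ht a h2 h3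
          · exact Finset.mem_union_right _ h2
        · have hbN : b ∈ NWs u i j := by
            refine (Finset.mem_union.1 hb).resolve_right fun h2 => h1 (Finset.mem_union_right _ h2)
          refine ⟨b, Finset.mem_union_left _ hbN, ?_⟩
          have h2 : b ∉ NWs u i' j' ∪ C := by
            intro h3
            rcases Finset.mem_union.1 h3 with h4 | h4
            · exact h1 (Finset.mem_union_left _ h4)
            · exact not_mem_C_of_le hC (mem_NWs.1 hbN).2 h4
          simp only [if_neg h2]
      · intro a ha hne'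
        by_cases h1 : a ∈ NWs u i' j' ∪ C
        · simp only [if_pos h1] at hne' ⊢
          exact ht.up a h1 hne'
        · simp only [if_neg h1] at hne'
          exact absurd rfl hne'
    · simp only [if_pos (Finset.mem_union_left C hx)]
      exact hne
  have hUeq : Us u C R i' j' = Us u C R i j :=
    Finset.eq_of_subset_of_card_le hUs (hmin hC' hR' (by omega))
  have hmove : ∀ t, Mt u (NWs u i j ∪ C) (NWs u i j ∪ R) t → ∀ x ∈ NWs u i j, t x ≠ x →
      i' ≤ u x := by
    intro t ht x hx hne
    have h1 : x ∈ Us u C R i j := mem_Us.2 ⟨hx, t, ht, hne⟩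
    rw [← hUeq] at h1
    exact (mem_NWs.1 (mem_Us.1 h1).1).2
  have hG : G = NWs u i' j' ∪ C := by
    apply Finset.eq_of_subset_of_card_le
    · intro y hy
      by_cases h1 : i' ≤ u y
      · exact Finset.mem_union_left _ (mem_NWs.2 ⟨hL.hG y hy, h1⟩)
      · have h2 : μ y ≠ y := by
          intro h3
          have h4 := hL.hF _ (hL.mt.mem hy)
          rw [h3] at h4
          exact h1 h4
        obtain ⟨h3, h4⟩ := hsub y hy h2
        rcases Finset.mem_union.1 h3 with h5 | h5
        · rw [h4] at h2
          exact absurd (hmove s hs y h5 h2) h1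
        · exact Finset.mem_union_right _ h5
    · have h1 := Finset.card_union_le (NWs u i' j') C
      rw [card_NWs] at h1
      omega
  -- `μ` and `s` agree
  have hμs : ∀ y ∈ G, y ∈ NWs u i j ∪ C → μ y = s y := by
    intro y hy h1
    have h2 : s y ∈ F := by
      apply hmemF _ _ (hs.mem h1)
      rcases Finset.mem_union.1 h1 with h3 | h3
      · rcases Finset.mem_union.1 (hs.mem h1) with h4 | h4
        · rw [hG] at hy
          rcases Finset.mem_union.1 hy with h5 | h5
          · exact (mem_NWs.1 h5).2.trans (hs.le_val h1)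
          · exact absurd h5 (not_mem_C_of_le hC (mem_NWs.1 h3).2)
        · exact (mem_NEs.1 (hR' h4)).2
      · rcases Finset.mem_union.1 (hs.mem h1) with h4 | h4
        · apply hmove s hs _ h4
          intro h5
          have h6 := hs.inj (Finset.mem_union_left _ h4) h1 h5
          rw [h6] at h4
          exact not_mem_C_of_le hC (mem_NWs.1 h4).2 h3
        · exact (mem_NEs.1 (hR' h4)).2
    exact (hμ _ (s y) rfl h2 y h1 rfl).2
  rintro t ht ⟨d, hd, h1, h2⟩
  have hdG : d ∈ G := by
    rw [hG]
    rcases Finset.mem_union.1 hd with h3 | h3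
    · refine Finset.mem_union_left _ (mem_NWs.2 ⟨(mem_NWs.1 h3).1.trans hj, ?_⟩)
      by_contra h4
      have h5 : s d = d := by
        by_contra h6
        exact h4 (hmove s hs d h3 h6)
      have h6 : t d = d := by
        by_contra h7
        exact h4 (hmove t ht d h3 h7)
      rw [h5, h6] at h2
      exact absurd h2 (lt_irrefl _)
    · exact Finset.mem_union_right _ h3
  refine hL.max (fun y => if y ∈ NWs u i j ∪ C then t y else y) ?_ ⟨d, hdG, ?_, ?_⟩
  · refine Mt.of_surj hL.mt.card ?_ ?_
    · intro b hb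
      rw [hF] at hb
      by_cases h3 : b ∈ NWs u i j ∪ R
      · obtain ⟨a, ha, hab⟩ := ht.surj h3
        refine ⟨a, ?_, by simp only [if_pos ha]; exact hab⟩
        rw [hG]
        rcases Finset.mem_union.1 ha with h4 | h4
        · refine Finset.mem_union_left _ (mem_NWs.2 ⟨(mem_NWs.1 h4).1.trans hj, ?_⟩)
          by_cases h5 : t a = a
          · rw [← h5, hab]
            rcases Finset.mem_union.1 hb with h6 | h6
            · exact (mem_NWs.1 h6).2
            · exact (mem_NEs.1 (hR' h6)).2
          · exact hmove t ht a h4 h5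
        · exact Finset.mem_union_right _ h4
      · have h4 : b ∈ NWs u i' j' := by
          refine (Finset.mem_union.1 hb).resolve_right fun h5 => h3 (Finset.mem_union_right _ h5)
        refine ⟨b, by rw [hG]; exact Finset.mem_union_left _ h4, ?_⟩
        have h5 : b ∉ NWs u i j ∪ C := by
          intro h6
          rcases Finset.mem_union.1 h6 with h7 | h7
          · exact h3 (Finset.mem_union_left _ h7)
          · exact not_mem_C_of_le hC' (mem_NWs.1 h4).2 h7
        simp only [if_neg h5]
    · intro a ha hne'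
      by_cases h3 : a ∈ NWs u i j ∪ C
      · simp only [if_pos h3] at hne' ⊢
        exact ht.up a h3 hne'
      · simp only [if_neg h3] at hne'
        exact absurd rfl hne'
  · intro y hy hdy
    by_cases h3 : y ∈ NWs u i j ∪ C
    · simp only [if_pos h3]
      rw [hμs y hy h3]
      exact h1 y h3 hdy
    · simp only [if_neg h3]
      exact (hfix y hy h3).symm
  · simp only [if_pos hd]
    rw [hμs d hdG hd]
    exact h2

end Pool.Agent.H61.KL
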