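import Pool.Agent.H61.KL.CaseNE
import Pool.Agent.H30.KL.Gen.Crit

/-!
# SW-NE classes of boxes and the choice of the box (MP_a7460d_ag)

`exists_min`: every class contains an NW-minimal box
`e` for which the number of usable points `Us` is minimal in the class.
-/

set_option autoImplicit false

open Pool.Agent.H30.KL Pool.Agent.H44.KL

namespace Pool.Agent.H61.KL

variable {n : ℕ} {u v : Equiv.Perm (Fin n)} {C R : Finset (Fin n)} {e f e₀ : Fin n × Fin n}

theorem adj_symm (h : Adj e f) : Adj f e := h.elim Or.inr Or.inl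

theorem conn_symm (h : Conn u v C R e f) : Conn u v C R f e := by
  induction h with
  | refl => exact Relation.ReflTransGen.refl
  | tail _ h2 ih => exact Relation.ReflTransGen.head ⟨h2.2.1, h2.1, (adj_symm h2.2.2)⟩ ih

theorem conn_trans {g : Fin n × Fin n} (h : Conn u v C R e f) (h' : Conn u v C R f g) :
    Conn u v C R e g := Relation.ReflTransGen.trans h h'

theorem conn_box (h : Conn u v C R e f) (he : BoxOf u v C R e) : BoxOf u v C R f := by
  induction h with
  | refl => exact he
  | tail _ h2 _ => exact h2.2.1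

theorem conn_of_adj (he : BoxOf u v C R e) (hf : BoxOf u v C R f) (h : Adj e f) : Conn u v C R e f :=
  Relation.ReflTransGen.single ⟨he, hf, h⟩

/-- a box NW of another box has fewer usable points -/
theorem Us_mono (he : BoxOf u v C R e) (hf : BoxOf u v C R f) (h1 : f.1 ≤ e.1) (h2 : e.2 ≤ f.2) :
    Us u C R e.1 e.2 ⊆ Us u C R f.1 f.2 := by
  have hN : NWs u e.1 e.2 ⊆ NWs u f.1 f.2 := fun x hx =>
    mem_NWs.2 ⟨(mem_NWs.1 hx).1.trans h2, h1.trans (mem_NWs.1 hx).2⟩
  intro x hx
  obtain ⟨hx, t, ht, hne⟩ := mem_Us.1 hx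
  refine mem_Us.2 ⟨hN hx, fun y => if y ∈ NWs u e.1 e.2 ∪ C then t y else y, ?_, ?_⟩
  · have hcard : (NWs u f.1 f.2 ∪ C).card = (NWs u f.1 f.2 ∪ R).card := by
      have h3 := card_CR he.1 he.2.1 ht
      rw [Finset.card_union_of_disjoint, Finset.card_union_of_disjoint, h3]
      · rw [Finset.disjoint_left]
        intro y hy hy'
        exact not_mem_R_of_le hf.2.1 (mem_NWs.1 hy).1 hy'
      · rw [Finset.disjoint_left]
        intro y hy hy'
        exact not_mem_C_of_le hf.1 (mem_NWs.1 hy).2 hy'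
    refine Mt.of_surj hcard ?_ ?_
    · intro b hb
      by_cases h3 : b ∈ NWs u e.1 e.2 ∪ R
      · obtain ⟨a, ha, hab⟩ := ht.surj h3
        refine ⟨a, ?_, by simp only [if_pos ha]; exact hab⟩
        rcases Finset.mem_union.1 ha with h4 | h4
        · exact Finset.mem_union_left _ (hN h4)
        · exact Finset.mem_union_right _ h4
      · have h4 : b ∈ NWs u f.1 f.2 := by
          refine (Finset.mem_union.1 hb).resolve_right fun h5 => h3 (Finset.mem_union_right _ h5)
        refine ⟨b, Finset.mem_union_left _ h4, ?_⟩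
        have h5 : b ∉ NWs u e.1 e.2 ∪ C := by
          intro h6
          rcases Finset.mem_union.1 h6 with h7 | h7
          · exact h3 (Finset.mem_union_left _ h7)
          · exact not_mem_C_of_le hf.1 (mem_NWs.1 h4).2 h7
        simp only [if_neg h5]
    · intro a ha hne'
      by_cases h3 : a ∈ NWs u e.1 e.2 ∪ C
      · simp only [if_pos h3] at hne' ⊢
        exact ht.up a h3 hne'
      · simp only [if_neg h3] at hne'
        exact absurd rfl hne'
  · simp only [if_pos (Finset.mem_union_left C hx)]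
    exact hne

/-- every box has an NW-minimal box of its class NW of it -/
theorem exists_NWmin (hf : BoxOf u v C R f) : ∃ e, Conn u v C R f e ∧ NWmin u v C R e ∧
    f.1 ≤ e.1 ∧ e.2 ≤ f.2 := by
  classical
  have key : ∀ (N : ℕ) (f : Fin n × Fin n), (n - (f.1 : ℕ)) + (f.2 : ℕ) = N → BoxOf u v C R f →
      ∃ e, Conn u v C R f e ∧ NWmin u v C R e ∧ f.1 ≤ e.1 ∧ e.2 ≤ f.2 := by
    intro N
    induction N using Nat.strong_induction_on with
    | _ N ih =>
      intro f hN hf
      by_cases h : NWmin u v C R f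
      · exact ⟨f, Relation.ReflTransGen.refl, h, le_rfl, le_rfl⟩
      · unfold NWmin at h
        push Not at h
        obtain ⟨g, hg, h1, h2, h3⟩ := h
        obtain ⟨e, he, he', h4, h5⟩ := ih ((n - (g.1 : ℕ)) + (g.2 : ℕ)) (by
          have h6 := g.1.isLt
          have h7 := f.1.isLt
          rw [Fin.le_def] at h1 h2
          have h8 : (g.1 : ℕ) ≠ (f.1 : ℕ) ∨ (g.2 : ℕ) ≠ (f.2 : ℕ) := by
            by_contra h9
            push Not at h9
            exact h3 (Prod.ext (Fin.ext h9.1) (Fin.ext h9.2))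
          omega) g rfl (conn_box hg hf)
        exact ⟨e, conn_trans hg he, he', h1.trans h4, h5.trans h2⟩
  exact key _ f rfl hf

/-- the choice of the box -/
theorem exists_min (he₀ : BoxOf u v C R e₀) : ∃ e, Conn u v C R e₀ e ∧ BoxOf u v C R e ∧
    NWmin u v C R e ∧ ∀ f, BoxOf u v C R f → Adj e f →
      (Us u C R e.1 e.2).card ≤ (Us u C R f.1 f.2).card := by
  classical
  obtain ⟨f, hf, hmin⟩ := Finset.exists_min_image
    (Finset.univ.filter fun f : Fin n × Fin n => Conn u v C R e₀ f)
    (fun f => (Us u C R f.1 f.2).card) ⟨e₀, Finset.mem_filter.2 ⟨Finset.mem_univ _,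
      Relation.ReflTransGen.refl⟩⟩
  have hf1 := (Finset.mem_filter.1 hf).2
  have hf2 := conn_box hf1 he₀
  obtain ⟨e, he, he', h1, h2⟩ := exists_NWmin hf2
  have he2 := conn_box he hf2
  refine ⟨e, conn_trans hf1 he, he2, he', fun g hg hcmp => ?_⟩
  refine (Finset.card_le_card (Us_mono he2 hf2 h1 h2)).trans (hmin g ?_)
  exact Finset.mem_filter.2 ⟨Finset.mem_univ _, conn_trans (conn_trans hf1 he) (conn_of_adj he2 hg hcmp)⟩

end Pool.Agent.H61.KL
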