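import Pool.Agent.H30.KL.Gen.Std1

/-!
# Consequences of homogeneity (MP_a7460d_ag)

`dead_mem_of_hom`: the indeterminate of a dead step lies in a homogeneous Kazhdan–Lusztig ideal.  `part_mem`: so does the part of the minor on the linkings
with `k` moved points.
-/

set_option autoImplicit false

open MvPolynomial Matrix

open Pool.Agent.H30.KL

namespace Pool.Agent.H61.KL

variable {n : ℕ} {u v : Equiv.Perm (Fin n)}

attribute [local instance] MvPolynomial.gradedAlgebra

theorem component_mem (hH : Hom u v) (k : ℕ) {p : MvPolynomial (Free u) ℂ}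
    (hp : p ∈ klIdeal u v) : homogeneousComponent k p ∈ klIdeal u v := by
  have h4 := hH k hp
  have hdec : ((DirectSum.decompose (homogeneousSubmodule (Free u) ℂ) p k :
      homogeneousSubmodule (Free u) ℂ k) : MvPolynomial (Free u) ℂ) =
      homogeneousComponent k p := by
    rw [← MvPolynomial.decomposition.decompose'_apply]
    rfl
  rwa [hdec] at h4

theorem entry_hom (a b : Fin n) :
    (Zmat u (u b) a).IsHomogeneous (if b ≠ a then 1 else 0) := by
  by_cases h : b = a
  · subst h
    rw [entry_diag, if_neg (not_not.2 rfl)]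
    exact isHomogeneous_one _ _
  · rw [if_pos h]
    by_cases h1 : u a < u b ∧ a < u.symm (u b)
    · rw [Zmat, Matrix.of_apply, dif_pos h1]
      exact isHomogeneous_X _ _
    · rw [Zmat, Matrix.of_apply, dif_neg h1, if_neg (fun h2 => h (u.injective h2).symm)]
      exact isHomogeneous_zero _ _ _

theorem term_hom {s : ℕ} (f g : Fin s → Fin n) (τ : Equiv.Perm (Fin s)) :
    (Equiv.Perm.sign τ • ∏ y, Zmat u (u (f (τ y))) (g y)).IsHomogeneous
      (Finset.univ.filter fun y => f (τ y) ≠ g y).card := by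
  have h1 : (∏ y, Zmat u (u (f (τ y))) (g y)).IsHomogeneous
      (∑ y, if f (τ y) ≠ g y then 1 else 0) :=
    IsHomogeneous.prod _ _ _ fun y _ => entry_hom (g y) (f (τ y))
  rw [← Finset.card_filter] at h1
  rcases Int.units_eq_one_or (Equiv.Perm.sign τ) with h | h
  · rw [h, one_smul]
    exact h1
  · rw [h, Units.neg_smul, one_smul]
    exact h1.neg

/-- the homogeneous components of a sum of terms -/
theorem component_sum {s : ℕ} (f g : Fin s → Fin n) (T : Finset (Equiv.Perm (Fin s))) (k : ℕ) :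
    homogeneousComponent k (∑ τ ∈ T, Equiv.Perm.sign τ • ∏ y, Zmat u (u (f (τ y))) (g y)) =
      ∑ τ ∈ T.filter (fun τ => (Finset.univ.filter fun y => f (τ y) ≠ g y).card = k),
        Equiv.Perm.sign τ • ∏ y, Zmat u (u (f (τ y))) (g y) := by
  rw [map_sum, Finset.sum_filter]
  apply Finset.sum_congr rfl
  intro τ _
  by_cases h : (Finset.univ.filter fun y => f (τ y) ≠ g y).card = k
  · rw [if_pos h, homogeneousComponent_of_mem (term_hom f g τ), if_pos h.symm]
  · rw [if_neg h, homogeneousComponent_of_mem (term_hom f g τ), if_neg (fun h1 => h h1.symm)]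

theorem Dm_eq {s : ℕ} (f g : Fin s → Fin n) : Dm u f g =
    ∑ τ ∈ (Finset.univ : Finset (Equiv.Perm (Fin s))),
      Equiv.Perm.sign τ • ∏ y, Zmat u (u (f (τ y))) (g y) := by
  rw [Dm, Matrix.det_apply]
  rfl

/-- the indeterminate of a dead step -/
theorem dead_mem_of_hom (huv : BruhatLE u v) (hH : Hom u v) {a b : Fin n} (hab : a < b)
    (hu : u a < u b) (hd : ¬ BruhatLE (u * Equiv.swap a b) v) :
    Zmat u (u b) a ∈ klIdeal u v := by
  classical
  obtain ⟨i, j, -, haj, hjb, hai, hib, hrk⟩ := sep_of_not_le huv hab hu hd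
  set W := NWs u i j with hW
  have hWc : W.card = rk v i j := by rw [hW, card_NWs, hrk]
  set w := W.orderEmbOfFin hWc with hw
  have hwm : ∀ k, w k ≤ j ∧ i ≤ u (w k) := fun k => mem_NWs.1 (W.orderEmbOfFin_mem hWc k)
  set f : Fin (rk v i j + 1) → Fin n := Fin.cons b w with hf
  set g : Fin (rk v i j + 1) → Fin n := Fin.cons a w with hg
  have f0 : f 0 = b := rfl
  have g0 : g 0 = a := rfl
  have fs : ∀ k, f k.succ = w k := fun k => by rw [hf, Fin.cons_succ]
  have gs : ∀ k, g k.succ = w k := fun k => by rw [hg, Fin.cons_succ]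
  have hfi : ∀ x, i ≤ u (f x) := by
    intro x
    refine Fin.cases ?_ (fun k => ?_) x
    · rw [f0]; exact hib
    · rw [fs]; exact (hwm k).2
  have hgj : ∀ y, g y ≤ j := by
    intro y
    refine Fin.cases ?_ (fun k => ?_) y
    · rw [g0]; exact haj
    · rw [gs]; exact (hwm k).1
  have hfinj : Function.Injective f := by
    intro x y
    refine Fin.cases ?_ (fun k => ?_) x <;> refine Fin.cases ?_ (fun l => ?_) y
    · intro _; rfl
    · intro h
      rw [f0, fs] at h
      exact absurd (hwm l).1 (by rw [← h]; exact not_le.2 hjb)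
    · intro h
      rw [f0, fs] at h
      exact absurd (hwm k).1 (by rw [h]; exact not_le.2 hjb)
    · intro h
      rw [fs, fs] at h
      rw [w.injective h]
  have hfa : ∀ x, f x ≠ a := by
    intro x
    refine Fin.cases ?_ (fun k => ?_) x
    · rw [f0]; exact hab.ne'
    · rw [fs]
      intro h
      exact absurd (hwm k).2 (by rw [h]; exact not_le.2 hai)
  have hD : Dm u f g ∈ klIdeal u v := minor_mem i j f g hfi hgj (Nat.lt_succ_self _)
  have h1 := component_mem hH 1 hD
  rw [Dm_eq, component_sum] at h1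
  have h2 : (Finset.univ.filter fun τ : Equiv.Perm (Fin (rk v i j + 1)) =>
      (Finset.univ.filter fun y => f (τ y) ≠ g y).card = 1) = {1} := by
    ext τ
    rw [Finset.mem_filter, Finset.mem_singleton]
    constructor
    · rintro ⟨-, h3⟩
      rw [Finset.card_eq_one] at h3
      obtain ⟨y0, h3⟩ := h3
      have h4 : (0 : Fin (rk v i j + 1)) ∈ (Finset.univ.filter fun y => f (τ y) ≠ g y) := by
        rw [Finset.mem_filter]
        exact ⟨Finset.mem_univ _, by rw [g0]; exact hfa _⟩
      rw [h3, Finset.mem_singleton] at h4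
      subst h4
      have h5 : ∀ k : Fin (rk v i j), τ k.succ = k.succ := by
        intro k
        have h6 : k.succ ∉ (Finset.univ.filter fun y => f (τ y) ≠ g y) := by
          rw [h3, Finset.mem_singleton]
          exact Fin.succ_ne_zero k
        rw [Finset.mem_filter, not_and, not_not] at h6
        have h7 := h6 (Finset.mem_univ _)
        rw [gs, ← fs k] at h7
        exact hfinj h7
      have h8 : τ 0 = 0 := by
        by_contra h9
        obtain ⟨k, hk⟩ := Fin.exists_succ_eq.2 h9
        have h10 := h5 k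
        rw [hk] at h10
        exact h9 (τ.injective h10)
      ext1 y
      refine Fin.cases ?_ (fun k => ?_) y
      · rw [h8]; rfl
      · rw [h5]; rfl
    · rintro rfl
      refine ⟨Finset.mem_univ _, ?_⟩
      rw [Finset.card_eq_one]
      refine ⟨0, ?_⟩
      ext y
      rw [Finset.mem_filter, Finset.mem_singleton]
      constructor
      · rintro ⟨-, h3⟩
        by_contra h4
        obtain ⟨k, rfl⟩ := Fin.exists_succ_eq.2 h4
        apply h3
        rw [Equiv.Perm.one_apply, fs, gs]
      · rintro rfl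
        refine ⟨Finset.mem_univ _, ?_⟩
        rw [Equiv.Perm.one_apply, f0, g0]
        exact hab.ne'
  rw [h2, Finset.sum_singleton, Equiv.Perm.sign_one, one_smul, Fin.prod_univ_succ] at h1
  simp only [Equiv.Perm.one_apply, f0, g0, fs, gs, entry_diag, Finset.prod_const_one,
    mul_one] at h1
  exact h1

open Classical in
/-- the part of the minor on the linkings with `k` moved points -/
theorem part_mem (huv : BruhatLE u v) (hH : Hom u v) {i j : Fin n} {s : ℕ} (f g : Fin s → Fin n)
    (hf : ∀ x, i ≤ u (f x)) (hg : ∀ y, g y ≤ j) (hs : rk v i j < s) (C R : Finset (Fin n))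
    (k : ℕ) :
    ∑ τ ∈ Finset.univ.filter (fun τ : Equiv.Perm (Fin s) => Star u v i j f g τ ∧
      (∀ y, Zmat u (u (f (τ y))) (g y) ≠ 0) ∧
      (∀ y, g y ≠ f (τ y) → BruhatLE (u * Equiv.swap (g y) (f (τ y))) v ∨
        C = {g y} ∧ R = {f (τ y)}) ∧
      (Finset.univ.filter fun y => f (τ y) ≠ g y).card = k),
      Equiv.Perm.sign τ • ∏ y, Zmat u (u (f (τ y))) (g y) ∈ klIdeal u v := by
  have h1 := component_mem hH k (dstar_mem (u := u) (v := v) i j f g hf hg hs)
  rw [Dstar, component_sum, ← Finset.sum_filter_add_sum_filter_not _ (fun τ =>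
    (∀ y, Zmat u (u (f (τ y))) (g y) ≠ 0) ∧
      (∀ y, g y ≠ f (τ y) → BruhatLE (u * Equiv.swap (g y) (f (τ y))) v ∨
        C = {g y} ∧ R = {f (τ y)}))] at h1
  have h2 : ∑ τ ∈ ((Finset.univ.filter (Star u v i j f g)).filter fun τ =>
      (Finset.univ.filter fun y => f (τ y) ≠ g y).card = k).filter (fun τ => ¬
      ((∀ y, Zmat u (u (f (τ y))) (g y) ≠ 0) ∧
      (∀ y, g y ≠ f (τ y) → BruhatLE (u * Equiv.swap (g y) (f (τ y))) v ∨
        C = {g y} ∧ R = {f (τ y)}))),
      Equiv.Perm.sign τ • ∏ y, Zmat u (u (f (τ y))) (g y) ∈ klIdeal u v := by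
    refine Ideal.sum_mem _ fun τ hτ => ?_
    have hbad := (Finset.mem_filter.1 hτ).2
    by_cases hz : ∀ y, Zmat u (u (f (τ y))) (g y) ≠ 0
    · have h3 : ¬ ∀ y, g y ≠ f (τ y) → BruhatLE (u * Equiv.swap (g y) (f (τ y))) v ∨
          C = {g y} ∧ R = {f (τ y)} := fun h => hbad ⟨hz, h⟩
      rw [not_forall] at h3
      obtain ⟨y, hy⟩ := h3
      rw [Classical.not_imp, not_or] at hy
      obtain ⟨hlt, hu⟩ := (entry_ne_zero (hz y)).resolve_left hy.1
      have h4 := dead_mem_of_hom huv hH hlt hu hy.2.1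
      rw [Units.smul_def, zsmul_eq_mul]
      apply Ideal.mul_mem_left
      rw [← Finset.mul_prod_erase _ _ (Finset.mem_univ y)]
      exact Ideal.mul_mem_right _ _ h4
    · rw [not_forall] at hz
      obtain ⟨y, hy⟩ := hz
      rw [not_not] at hy
      rw [Finset.prod_eq_zero (Finset.mem_univ y) hy, smul_zero]
      exact zero_mem _
  have h3 := sub_mem h1 h2
  rw [add_sub_cancel_right] at h3
  have h4 : (Finset.univ.filter (fun τ : Equiv.Perm (Fin s) => Star u v i j f g τ ∧
      (∀ y, Zmat u (u (f (τ y))) (g y) ≠ 0) ∧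
      (∀ y, g y ≠ f (τ y) → BruhatLE (u * Equiv.swap (g y) (f (τ y))) v ∨
        C = {g y} ∧ R = {f (τ y)}) ∧
      (Finset.univ.filter fun y => f (τ y) ≠ g y).card = k)) =
      ((Finset.univ.filter (Star u v i j f g)).filter fun τ =>
      (Finset.univ.filter fun y => f (τ y) ≠ g y).card = k).filter (fun τ =>
      (∀ y, Zmat u (u (f (τ y))) (g y) ≠ 0) ∧
      (∀ y, g y ≠ f (τ y) → BruhatLE (u * Equiv.swap (g y) (f (τ y))) v ∨
        C = {g y} ∧ R = {f (τ y)})) := by
    ext τ
    simp only [Finset.mem_filter, Finset.mem_univ, true_and]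
    tauto
  rw [h4]
  exact h3

end Pool.Agent.H61.KL
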