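import Pool.Agent.H44.KL.Mt

/-!
# A path-free exchange lemma for matchings (MP_a7460d_ag)
-/

set_option autoImplicit false

open Pool.Agent.H30.KL Pool.Agent.H44.KL

namespace Pool.Agent.H61.KL

variable {n : ℕ} {u : Equiv.Perm (Fin n)} {G F : Finset (Fin n)}

theorem bijOn_swap {ν : Fin n → Fin n} (h : Set.BijOn ν ↑G ↑F) {a b : Fin n} (ha : a ∈ G)
    (hb : b ∈ G) : Set.BijOn (fun y => ν (Equiv.swap a b y)) ↑G ↑F := by
  have h1 : Set.BijOn (Equiv.swap a b) (↑G : Set (Fin n)) ↑G := by
    have h2 : ∀ x ∈ (↑G : Set (Fin n)), Equiv.swap a b x ∈ (↑G : Set (Fin n)) := by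
      intro x hx
      rcases eq_or_ne x a with rfl | h3
      · rw [Equiv.swap_apply_left]
        exact Finset.mem_coe.2 hb
      · rcases eq_or_ne x b with rfl | h4
        · rw [Equiv.swap_apply_right]
          exact Finset.mem_coe.2 ha
        · rw [Equiv.swap_apply_of_ne_of_ne h3 h4]
          exact hx
    refine ⟨h2, (Equiv.injective _).injOn, fun x hx => ⟨Equiv.swap a b x, h2 x hx, ?_⟩⟩
    exact Equiv.swap_apply_self _ _ _
  exact h.comp h1

/-- exchanging a descending pair lowers all the box counts -/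
theorem count_swap {ν : Fin n → Fin n} {a b : Fin n} (ha : a ∈ G) (hb : b ∈ G) (hab : a < b)
    (hu : u (ν b) < u (ν a)) (i' j' : Fin n) :
    (G.filter fun y => y ≤ j' ∧ i' ≤ u (ν (Equiv.swap a b y))).card ≤
      (G.filter fun y => y ≤ j' ∧ i' ≤ u (ν y)).card := by
  by_cases hbj : b ≤ j'
  · -- both columns are counted: use the swap
    refine Finset.card_le_card_of_injOn (fun y => Equiv.swap a b y) ?_
      (Equiv.injective _).injOn
    intro y hy
    have hy' := Finset.mem_filter.1 (Finset.mem_coe.1 hy)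
    show Equiv.swap a b y ∈ (↑(G.filter fun y => y ≤ j' ∧ i' ≤ u (ν y)) : Set (Fin n))
    refine Finset.mem_coe.2 (Finset.mem_filter.2 ⟨?_, ?_, hy'.2.2⟩)
    · rcases eq_or_ne y a with rfl | h3
      · rw [Equiv.swap_apply_left]
        exact hb
      · rcases eq_or_ne y b with rfl | h4
        · rw [Equiv.swap_apply_right]
          exact ha
        · rw [Equiv.swap_apply_of_ne_of_ne h3 h4]
          exact hy'.1
    · rcases eq_or_ne y a with rfl | h3
      · rw [Equiv.swap_apply_left]
        exact hbj
      · rcases eq_or_ne y b with rfl | h4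
        · rw [Equiv.swap_apply_right]
          exact hab.le.trans hbj
        · rw [Equiv.swap_apply_of_ne_of_ne h3 h4]
          exact hy'.2.1
  · refine Finset.card_le_card ?_
    intro y hy
    have hy' := Finset.mem_filter.1 hy
    refine Finset.mem_filter.2 ⟨hy'.1, hy'.2.1, ?_⟩
    rcases eq_or_ne y a with rfl | h3
    · have h5 := hy'.2.2
      rw [Equiv.swap_apply_left] at h5
      exact h5.trans hu.le
    · rcases eq_or_ne y b with rfl | h4
      · exact absurd hy'.2.1 hbj
      · have h5 := hy'.2.2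
        rwa [Equiv.swap_apply_of_ne_of_ne h3 h4] at h5

/-- `ν` is a matching except perhaps for the value of the point `a`; the hole moves down along the path -/
theorem hole : ∀ (N : ℕ) (a : Fin n) (ν : Fin n → Fin n), (a : ℕ) = N → Set.BijOn ν ↑G ↑F →
    (∀ y ∈ G, y ≠ a → ν y ≠ y → y < ν y ∧ u y < u (ν y)) → a ∈ G → a < ν a →
    (∀ x ∈ G, x ≤ a → u (ν a) < u x → x ∈ F) →
    ∃ ν' : Fin n → Fin n, Mt u G F ν' ∧ (∀ y, a < y → ν' y = ν y) ∧
      (∀ i' j' : Fin n, (G.filter fun y => y ≤ j' ∧ i' ≤ u (ν' y)).card ≤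
        (G.filter fun y => y ≤ j' ∧ i' ≤ u (ν y)).card) ∧
      (G.filter fun y => ν' y ≠ y).card ≤ (G.filter fun y => ν y ≠ y).card := by
  intro N
  induction N using Nat.strong_induction_on with
  | _ N ih =>
    intro a ν haN hν hup ha hlt hst
    rcases lt_trichotomy (u a) (u (ν a)) with h1 | h1 | h1
    · refine ⟨ν, ⟨hν, fun y hy hne => ?_⟩, fun _ _ => rfl, fun _ _ => le_rfl, le_rfl⟩
      rcases eq_or_ne y a with rfl | h2
      · exact ⟨hlt, h1⟩
      · exact hup y hy h2 hne
    · exact absurd (u.injective h1) hlt.ne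
    · have haF := hst a ha le_rfl h1
      obtain ⟨b, hb, hba⟩ := hν.surjOn (Finset.mem_coe.2 haF)
      have hb' : b ∈ G := Finset.mem_coe.1 hb
      have hne : b ≠ a := by
        rintro rfl
        exact hlt.ne hba.symm
      have hstep := hup b hb' hne (by rw [hba]; exact hne.symm)
      rw [hba] at hstep
      set ν1 : Fin n → Fin n := fun y => ν (Equiv.swap b a y) with hν1
      have e1 : ν1 a = a := by
        simp only [hν1, Equiv.swap_apply_right]
        exact hba
      have e2 : ν1 b = ν a := by
        simp only [hν1, Equiv.swap_apply_left]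
      have e3 : ∀ y, y ≠ b → y ≠ a → ν1 y = ν y := by
        intro y h3 h4
        simp only [hν1]
        rw [Equiv.swap_apply_of_ne_of_ne h3 h4]
      obtain ⟨ν', g1, g2, g3, g4⟩ := ih (b : ℕ) (by
          have := hstep.1
          rw [Fin.lt_def] at this
          omega) b ν1 rfl (bijOn_swap hν hb' ha) (by
          intro y hy hyb hne'
          rcases eq_or_ne y a with rfl | h2
          · exact absurd e1 hne'
          · rw [e3 y hyb h2] at hne' ⊢
            exact hup y hy h2 hne') hb' (by
          rw [e2]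
          exact hstep.1.trans hlt) (by
          intro x hx hxb hxu
          rw [e2] at hxu
          exact hst x hx (hxb.trans hstep.1.le) hxu)
      refine ⟨ν', g1, ?_, ?_, ?_⟩
      · intro y hy
        rw [g2 y (hstep.1.trans hy), e3 y (hstep.1.trans hy).ne' hy.ne']
      · intro i' j'
        refine (g3 i' j').trans ?_
        have h5 := count_swap (u := u) (ν := ν) hb' ha hstep.1 (by rw [hba]; exact h1) i' j'
        exact h5
      · refine g4.trans (Finset.card_le_card ?_)
        intro y hy
        rw [Finset.mem_filter] at hy ⊢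
        refine ⟨hy.1, ?_⟩
        rcases eq_or_ne y a with rfl | h2
        · exact absurd e1 hy.2
        · rcases eq_or_ne y b with rfl | h3
          · rw [hba]
            exact hne.symm
          · rw [e3 y h3 h2] at hy
            exact hy.2

/-- the exchange lemma: two points `a < d` with `d < μ a`, `u (μ d) < u (μ a)` -/
theorem exch {μ : Fin n → Fin n} (h : Mt u G F μ) {a d : Fin n} (ha : a ∈ G) (hd : d ∈ G)
    (had : a < d) (hda : d < μ a) (hu : u (μ d) < u (μ a))
    (hst : ∀ x ∈ G, x < d → u (μ d) < u x → x ∈ F) :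
    ∃ μ' : Fin n → Fin n, Mt u G F μ' ∧ μ' d = μ a ∧ (∀ y, d < y → μ' y = μ y) ∧
      (∀ i' j' : Fin n, (G.filter fun y => y ≤ j' ∧ i' ≤ u (μ' y)).card ≤
        (G.filter fun y => y ≤ j' ∧ i' ≤ u (μ y)).card) ∧
      (G.filter fun y => μ' y ≠ y).card ≤ (G.filter fun y => μ y ≠ y).card +
        (if μ d = d then 1 else 0) := by
  set ν1 : Fin n → Fin n := fun y => μ (Equiv.swap a d y) with hν1
  have e1 : ν1 d = μ a := by
    simp only [hν1, Equiv.swap_apply_right]
  have e2 : ν1 a = μ d := by
    simp only [hν1, Equiv.swap_apply_left]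
  have e3 : ∀ y, y ≠ a → y ≠ d → ν1 y = μ y := by
    intro y h3 h4
    simp only [hν1]
    rw [Equiv.swap_apply_of_ne_of_ne h3 h4]
  obtain ⟨μ', g1, g2, g3, g4⟩ := hole (u := u) (G := G) (F := F) (a : ℕ) a ν1 rfl
    (bijOn_swap h.bij ha hd) (by
      intro y hy hya hne
      rcases eq_or_ne y d with rfl | h2
      · rw [e1]
        exact ⟨hda, (h.le_val hd).trans_lt hu⟩
      · rw [e3 y hya h2] at hne ⊢
        exact h.up y hy hne) ha (by
      rw [e2]
      exact had.trans_le (h.le hd)) (by
      intro x hx hxa hxu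
      rw [e2] at hxu
      exact hst x hx (hxa.trans_lt had) hxu)
  refine ⟨μ', g1, ?_, ?_, ?_, ?_⟩
  · rw [g2 d had, e1]
  · intro y hy
    rw [g2 y (had.trans hy), e3 y (had.trans hy).ne' hy.ne']
  · intro i' j'
    exact (g3 i' j').trans (count_swap (u := u) ha hd had hu i' j')
  · refine g4.trans ?_
    split_ifs with hdf
    · have h5 : (G.filter fun y => ν1 y ≠ y) ⊆ insert d (G.filter fun y => μ y ≠ y) := by
        intro y hy
        rw [Finset.mem_filter] at hy
        rw [Finset.mem_insert, Finset.mem_filter]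
        rcases eq_or_ne y d with rfl | h2
        · exact Or.inl rfl
        · right
          refine ⟨hy.1, ?_⟩
          rcases eq_or_ne y a with rfl | h3
          · exact (had.trans hda).ne'
          · rw [← e3 y h3 h2]
            exact hy.2
      exact (Finset.card_le_card h5).trans (Finset.card_insert_le _ _)
    · rw [add_zero]
      refine Finset.card_le_card ?_
      intro y hy
      rw [Finset.mem_filter] at hy ⊢
      refine ⟨hy.1, ?_⟩
      rcases eq_or_ne y d with rfl | h2
      · exact hdf
      · rcases eq_or_ne y a with rfl | h3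
        · exact (had.trans hda).ne'
        · rw [← e3 y h3 h2]
          exact hy.2

/-- a leading matching admits no exchange -/
theorem no_exch {v : Equiv.Perm (Fin n)} {i j : Fin n} {μ : Fin n → Fin n} (h : Ldr u v i j G F μ)
    {a d : Fin n} (ha : a ∈ G) (hd : d ∈ G) (had : a < d) (hda : d < μ a)
    (hu : u (μ d) < u (μ a)) (hst : ∀ x ∈ G, x < d → u (μ d) < u x → x ∈ F) : False := by
  obtain ⟨μ', g1, g2, g3, -, -⟩ := exch h.mt ha hd had hda hu hst
  exact h.max μ' g1 ⟨d, hd, fun y _ hy => g3 y hy, by rw [g2]; exact hu⟩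

end Pool.Agent.H61.KL
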